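import Pool.Agent.H37.CSZ.Stmts
import Pool.Agent.H55.CNE.SLT

/-!
# Row ZZV of the board `csz`: the degree of `k(x, z, u)` over `k(u)`
-/

set_option autoImplicit false

namespace Pool.CND

open Finset

theorem zzv_thm (hA : S_ZZA) (hX : S_ZZX) : S_ZZV := by
  intro n q f e k F Ω _ _ _ _ _ x z u hk hn hf hq hef hFq hu hxu hzu
  have hchar := hk
  have hq1 : 1 ≤ q := by rw [hq]; exact Nat.one_le_two_pow
  have hfq : f ≤ q := by
    rw [hf, hq]
    exact Nat.pow_le_pow_right (by norm_num) (by omega)
  have he1 : 1 ≤ e := by omega
  have hcop : Nat.Coprime e q := by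
    have h2f : 2 ∣ f := by rw [hf]; exact dvd_pow_self 2 (by omega)
    have h2q : 2 ∣ q := by rw [hq]; exact dvd_pow_self 2 (by omega)
    have h2e : ¬ 2 ∣ e := by omega
    rw [hq]
    apply Nat.Coprime.pow_right
    exact ((Nat.Prime.coprime_iff_not_dvd Nat.prime_two).2 h2e).symm
  -- `x` is transcendental
  have hx : Transcendental k x := by
    intro h
    have h1 : IsAlgebraic k (u ^ e) := by
      rw [← hxu]
      exact (h.pow q).add h
    exact hu (IsAlgebraic.of_pow he1 h1)
  let A := IntermediateField.adjoin k {u ^ e}
  let B := IntermediateField.adjoin k {u}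
  let C := IntermediateField.adjoin k {x}
  let D := IntermediateField.adjoin k {x, z}
  let E := IntermediateField.adjoin k {x, z, u}
  obtain ⟨hAB, hABe⟩ := slm_thm k Ω e u he1 hu
  have hq2 : 2 ≤ q := by
    rw [hq]
    calc 2 = 2 ^ 1 := rfl
      _ ≤ 2 ^ (2 * n + 1) := Nat.pow_le_pow_right (by norm_num) (by omega)
  have hdeg : (Polynomial.X ^ q + Polynomial.X : Polynomial k).natDegree = q := by
    rw [Polynomial.natDegree_add_eq_left_of_natDegree_lt, Polynomial.natDegree_X_pow]
    rw [Polynomial.natDegree_X_pow, Polynomial.natDegree_X]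
    omega
  obtain ⟨hAC, hACq⟩ := rel_deg k Ω x (u ^ e) hx (Polynomial.X ^ q + Polynomial.X) 1 one_ne_zero
    isCoprime_one_right (by
      rw [map_add, map_pow, Polynomial.aeval_X, map_one, mul_one, hxu])
  rw [hdeg, Polynomial.natDegree_one, max_eq_left (Nat.zero_le q)] at hACq
  have hxC : x ∈ C := IntermediateField.mem_adjoin_simple_self k x
  have hCD : C ≤ D := IntermediateField.adjoin.mono _ _ _ (by simp)
  have hDE : D ≤ E := IntermediateField.adjoin.mono _ _ _ (by
    intro y hy
    simp only [Set.mem_insert_iff, Set.mem_singleton_iff] at hy ⊢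
    tauto)
  have hBE : B ≤ E := IntermediateField.adjoin.mono _ _ _ (by
    intro y hy
    simp only [Set.mem_insert_iff, Set.mem_singleton_iff] at hy ⊢
    tauto)
  have hzD : z ∈ D := IntermediateField.subset_adjoin k _ (by simp)
  have hxD : x ∈ D := IntermediateField.subset_adjoin k _ (by simp)
  -- the degree of `D` over `C`
  have hCDq : IntermediateField.relfinrank C D = q := by
    letI : Algebra F C := ((algebraMap k C).comp (algebraMap F k)).toAlgebra
    have hCc : CharP C 2 := charP_of_injective_algebraMap (algebraMap k C).injective 2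
    have hgm : x ^ f * (x ^ q + x) ∈ C := mul_mem (pow_mem hxC f) (add_mem (pow_mem hxC q) hxC)
    have hFfin : Finite F := Nat.finite_of_card_ne_zero (by rw [hFq]; omega)
    have h1 := hA (2 * n + 1) q C Ω F ⟨x ^ f * (x ^ q + x), hgm⟩ z hCc (by omega) hq hFq
      (by rw [hzu, ← hxu]; rfl) (by
        intro c hc r hr
        have hc' : algebraMap F k c ≠ 0 := by
          rw [Ne, map_eq_zero]
          exact hc
        have hcq : (algebraMap F k c) ^ q = algebraMap F k c := by
          letI : Fintype F := Fintype.ofFinite F
          rw [← map_pow, ← hFq, Nat.card_eq_fintype_card, FiniteField.pow_card]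
        refine hX n q f k Ω x (algebraMap F k c) hk hn hf hq hx hc' hcq r r.2 ?_
        have h2 := congrArg (fun y : C => (y : Ω)) hr
        exact h2)
    rw [IntermediateField.relfinrank_eq_finrank_of_le hCD,
      IntermediateField.extendScalars_adjoin hCD]
    have h3 : IntermediateField.adjoin C {x, z} = IntermediateField.adjoin C {z} := by
      apply le_antisymm
      · rw [IntermediateField.adjoin_le_iff]
        intro y hy
        simp only [Set.mem_insert_iff, Set.mem_singleton_iff] at hy
        rcases hy with rfl | rfl
        · exact (IntermediateField.adjoin C {z}).algebraMap_mem ⟨y, hxC⟩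
        · exact IntermediateField.mem_adjoin_simple_self C y
      · exact IntermediateField.adjoin.mono _ _ _ (by simp)
    rw [h3]
    exact h1
  -- the degree of `E` over `D`
  have hDEe : IntermediateField.relfinrank D E ≤ e ∧ 1 ≤ IntermediateField.relfinrank D E := by
    rw [IntermediateField.relfinrank_eq_finrank_of_le hDE,
      IntermediateField.extendScalars_adjoin hDE]
    have h3 : IntermediateField.adjoin D {x, z, u} = IntermediateField.adjoin D {u} := by
      apply le_antisymm
      · rw [IntermediateField.adjoin_le_iff]
        intro y hy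
        simp only [Set.mem_insert_iff, Set.mem_singleton_iff] at hy
        rcases hy with rfl | rfl | rfl
        · exact (IntermediateField.adjoin D {u}).algebraMap_mem ⟨y, hxD⟩
        · exact (IntermediateField.adjoin D {u}).algebraMap_mem ⟨y, hzD⟩
        · exact IntermediateField.mem_adjoin_simple_self D y
      · exact IntermediateField.adjoin.mono _ _ _ (by simp)
    rw [h3]
    have hdm : x ^ q + x ∈ D := add_mem (pow_mem hxD q) hxD
    let p : Polynomial D := Polynomial.X ^ e - Polynomial.C ⟨x ^ q + x, hdm⟩
    have hpm : p.Monic := Polynomial.monic_X_pow_sub_C _ (by omega)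
    have hpd : p.natDegree = e := Polynomial.natDegree_X_pow_sub_C
    have hp0 : Polynomial.aeval u p = 0 := by
      simp only [p, map_sub, map_pow, Polynomial.aeval_X, Polynomial.aeval_C]
      rw [← hxu]
      exact sub_self _
    have hint : IsIntegral D u := ⟨p, hpm, hp0⟩
    rw [IntermediateField.adjoin.finrank hint]
    refine ⟨?_, minpoly.natDegree_pos hint⟩
    rw [← hpd]
    exact Polynomial.natDegree_le_natDegree (minpoly.min D u hpm hp0)
  have t1 : IntermediateField.relfinrank A B * IntermediateField.relfinrank B E =
      IntermediateField.relfinrank A E := IntermediateField.relfinrank_mul_relfinrank hAB hBE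
  have t2 : IntermediateField.relfinrank A C * IntermediateField.relfinrank C D =
      IntermediateField.relfinrank A D := IntermediateField.relfinrank_mul_relfinrank hAC hCD
  have t3 : IntermediateField.relfinrank A D * IntermediateField.relfinrank D E =
      IntermediateField.relfinrank A E :=
    IntermediateField.relfinrank_mul_relfinrank (hAC.trans hCD) hDE
  rw [hCDq] at t2
  change IntermediateField.relfinrank A C = q at hACq
  change IntermediateField.relfinrank A B = e at hABe
  change IntermediateField.relfinrank B E = q ^ 2
  rw [hACq] at t2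
  rw [← t2, ← t1, hABe] at t3
  obtain ⟨h5, h6⟩ := hDEe
  have h7 : e ∣ IntermediateField.relfinrank D E := by
    have h8 : e ∣ q * q * IntermediateField.relfinrank D E := ⟨_, t3⟩
    exact (Nat.Coprime.mul_right hcop hcop).dvd_of_dvd_mul_left h8
  have h9 : IntermediateField.relfinrank D E = e := le_antisymm h5 (Nat.le_of_dvd (by omega) h7)
  rw [h9] at t3
  have h10 : e * IntermediateField.relfinrank B E = e * q ^ 2 := by rw [← t3]; ring
  exact Nat.eq_of_mul_eq_mul_left (by omega) h10

end Pool.CND
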